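import Pool.Agent.Lib.H8.Hyp2

set_option maxHeartbeats 400000

namespace Pool.Agent.Results.MP_284f77_nt.Yes
open PowerSeries Finset Pool.Agent.Lib.H8.Hyp2

/-- Π₁(N) = ∏_{j=1}^N (4j-1)². -/
def P1 (N : ℕ) : ℤ := ∏ j ∈ range N, (4 * ((j : ℤ) + 1) - 1) ^ 2

/-- Π₃(N) = ∏_{j=1}^N (4j-3)². -/
def P3 (N : ℕ) : ℤ := ∏ j ∈ range N, (4 * ((j : ℤ) + 1) - 3) ^ 2

/-- u(n) = Π₁(n) - Σ_{m<n} C(2n+1, 2m+1) Π₃(n-m) u(m); for n = 0 this gives u(0) = 1. -/
def u (n : ℕ) : ℤ :=
  P1 n - ∑ m : Fin n, ((2 * n + 1).choose (2 * m + 1) : ℤ) * P3 (n - m) * u m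
decreasing_by exact m.2

lemma cN (n : ℕ) : coeff n (F (3 / 4) (3 / 4) (3 / 2)) = P1 n / (2 * n + 1).factorial := by
  induction n with
  | zero => rw [F0]; simp [P1]
  | succ n ih =>
    have h := Frec (3 / 4) (3 / 4) (3 / 2) (by norm_num) n
    rw [ih] at h
    have h1 : ((2 * n + 1).factorial : ℚ) ≠ 0 := by positivity
    rw [show 2 * (n + 1) + 1 = 2 * n + 1 + 1 + 1 by ring, Nat.factorial_succ (2 * n + 1 + 1),
      Nat.factorial_succ (2 * n + 1), P1, prod_range_succ, ← P1, eq_div_iff (by positivity)]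
    push_cast
    have h2 : (P1 n : ℚ) / (2 * n + 1).factorial * (2 * n + 1).factorial = P1 n := by field_simp
    linear_combination (4 * ((2 * n + 1).factorial : ℚ)) * h + (4 * (n : ℚ) + 3) ^ 2 * h2

lemma cD (n : ℕ) : coeff n (F (1 / 4) (1 / 4) (1 / 2)) = P3 n / (2 * n).factorial := by
  induction n with
  | zero => rw [F0]; simp [P3]
  | succ n ih =>
    have h := Frec (1 / 4) (1 / 4) (1 / 2) (by norm_num) n
    rw [ih] at h
    have h1 : ((2 * n).factorial : ℚ) ≠ 0 := by positivity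
    rw [show 2 * (n + 1) = 2 * n + 1 + 1 by ring, Nat.factorial_succ (2 * n + 1),
      Nat.factorial_succ (2 * n), P3, prod_range_succ, ← P3, eq_div_iff (by positivity)]
    push_cast
    have h2 : (P3 n : ℚ) / (2 * n).factorial * (2 * n).factorial = P3 n := by field_simp
    linear_combination (4 * ((2 * n).factorial : ℚ)) * h + (4 * (n : ℚ) + 1) ^ 2 * h2

theorem result (n : ℕ) : Odd ((u n : ℚ) / (2 * n + 1).factorial).den := by
  have key := main 0 0 0 0 0 0 (PowerSeries.mk fun n => (u n : ℚ) / (2 * n + 1).factorial) (by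
    ext k
    simp only [Nat.cast_zero, add_zero]
    rw [coeff_mul, Nat.sum_antidiagonal_eq_sum_range_succ_mk, sum_range_succ, cN]
    simp only [coeff_mk, Nat.sub_self, F0, mul_one]
    have hu : (u k : ℚ) = P1 k
        - ∑ m ∈ range k, ((2 * k + 1).choose (2 * m + 1) : ℚ) * P3 (k - m) * u m := by
      rw [u, Fin.sum_univ_eq_sum_range
        (fun m => ((2 * k + 1).choose (2 * m + 1) : ℤ) * P3 (k - m) * u m) k]
      push_cast; rfl
    rw [hu, sub_div, sum_div]
    have : ∑ m ∈ range k, (u m : ℚ) / (2 * m + 1).factorial * coeff (k - m) (F (1 / 4) (1 / 4) (1 / 2))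
        = ∑ m ∈ range k, ((2 * k + 1).choose (2 * m + 1) : ℚ) * P3 (k - m) * u m
          / (2 * k + 1).factorial := by
      refine sum_congr rfl fun m hm => ?_
      have hm' := mem_range.1 hm
      rw [cD, Nat.cast_choose ℚ (show 2 * m + 1 ≤ 2 * k + 1 by omega),
        show 2 * k + 1 - (2 * m + 1) = 2 * (k - m) by omega]
      have h1 : ((2 * k + 1).factorial : ℚ) ≠ 0 := by positivity
      have h2 : ((2 * m + 1).factorial : ℚ) ≠ 0 := by positivity
      have h3 : ((2 * (k - m)).factorial : ℚ) ≠ 0 := by positivity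
      field_simp
    rw [this]; ring) n
  rw [coeff_mk] at key
  exact key

end Pool.Agent.Results.MP_284f77_nt.Yes
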